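import Pool.Agent.Q117.SA.Ext
import Pool.Agent.Q117.SA.Ind

/-!
# A feasibility set of binary pattern densities which is not semi-algebraic

For a word `w` (a nonempty list of letters, `true` stands for `1` and `false` for `0`) and a
measurable function `f : [0,1] → [0,1]` let `density w f` be the density of `w` for `f`, and for
words `W 0, …, W (k-1)` let `feasible W ⊆ ℝ^k` be the set of all `(density (W 0) f, …)`.  We prove
that `feasible` of the two words `10` and `1100` is not semi-algebraic, so the answer to Q1 is no.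

Outline.  Put `A(x) = ∫_0^x f` and `Z(x) = ∫_x^1 (1 - f)`.  Then
`ρ_10 = 2 ∫ f Z` and `ρ_1100 = 12 ∫ f A Z²`.  For `0 < κ ≤ 1/4` a pointwise minimisation of
`a z² - 2 κ z` gives `∫ f (A Z² - 2 κ Z) ≥ κ² log (4 κ) - 3/2 κ²`, with equality for the function
whose path satisfies `A Z = κ` in the middle and which is `1` before and `0` after.  So the points
`(2 κ (1 - L), 6 κ² (1 - 2 L))`, `L = log (4 κ)`, lie on the lower boundary of the feasibility set,
and no polynomial `≠ 0` vanishes at all of them, as `κ` and `log κ` are algebraically independent.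
-/

namespace Pool.Agent.Results.MP_76c07a_co.NotSemialgebraic

open MeasureTheory Set

/-- The density of the word `w` (`true` is the letter `1`, `false` is the letter `0`) for `f`:
`m! ∫ ∏ g_i(x_i)` over `0 ≤ x_1 < ⋯ < x_m ≤ 1`, with `g_i = f` or `1 - f`. -/
noncomputable def density (w : List Bool) (f : ℝ → ℝ) : ℝ :=
  (w.length.factorial : ℝ) *
    ∫ x in {x : Fin w.length → ℝ | StrictMono x ∧ ∀ i, x i ∈ Icc (0 : ℝ) 1},
      ∏ i, (if w.get i then f (x i) else 1 - f (x i))

/-- The feasibility set of the words `W 0, …, W (k-1)`; the functions are measurable and have values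
in `[0,1]` on `[0,1]` (their values elsewhere are not used). -/
def feasible {k : ℕ} (W : Fin k → List Bool) : Set (Fin k → ℝ) :=
  {v | ∃ f : ℝ → ℝ, Measurable f ∧ (∀ x ∈ Icc (0 : ℝ) 1, f x ∈ Icc (0 : ℝ) 1) ∧
    v = fun i => density (W i) f}

/-- Semi-algebraic subsets of `ℝ^k`: finite unions of sets given by one equation and finitely many
strict inequalities between polynomials with real coefficients. -/
def IsSemialgebraic {k : ℕ} (S : Set (Fin k → ℝ)) : Prop :=
  ∃ F : Finset (MvPolynomial (Fin k) ℝ × Finset (MvPolynomial (Fin k) ℝ)),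
    S = {v | ∃ c ∈ F, MvPolynomial.eval v c.1 = 0 ∧ ∀ q ∈ c.2, 0 < MvPolynomial.eval v q}

theorem density_congr (w : List Bool) {f h : ℝ → ℝ} (hfh : ∀ x ∈ Icc (0 : ℝ) 1, f x = h x) :
    density w f = density w h := by
  unfold density
  congr 1
  refine setIntegral_congr_fun (Pool.Agent.Q117.SA.measurableSet_T w.length measurableSet_Icc) ?_
  intro x hx
  refine Finset.prod_congr rfl fun i _ => ?_
  rw [hfh (x i) (hx.2 i)]

/-- The feasibility set of the words `10` and `1100` is not semi-algebraic. -/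
theorem result : ¬ IsSemialgebraic (feasible ![[true, false], [true, true, false, false]]) := by
  classical
  rintro ⟨F, hF⟩
  -- the boundary points are feasible
  have hin : ∀ κ : ℝ, 0 < κ → κ < 1 / 4 →
      ![2 * κ * (1 - Real.log (4 * κ)), 6 * κ ^ 2 * (1 - 2 * Real.log (4 * κ))] ∈
        feasible ![[true, false], [true, true, false, false]] := by
    intro κ h1 h2
    refine ⟨Pool.Agent.Q117.SA.fk κ, Pool.Agent.Q117.SA.fk_meas h1,
      fun x _ => ⟨Pool.Agent.Q117.SA.fk_nonneg h1 x, Pool.Agent.Q117.SA.fk_le h1 x⟩, ?_⟩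
    funext i
    fin_cases i
    · exact (Pool.Agent.Q117.SA.dens1 h1 h2).symm
    · exact (Pool.Agent.Q117.SA.dens2 h1 h2).symm
  -- points below are not feasible
  have hout : ∀ κ ε : ℝ, 0 < κ → κ < 1 / 4 → 0 < ε →
      ![2 * κ * (1 - Real.log (4 * κ)), 6 * κ ^ 2 * (1 - 2 * Real.log (4 * κ)) - ε] ∉
        feasible ![[true, false], [true, true, false, false]] := by
    rintro κ ε h1 h2 h3 ⟨f, hm, hf, hv⟩
    set h : ℝ → ℝ := fun x => max 0 (min 1 (f x)) with hh
    have hhm : Measurable h := measurable_const.max (measurable_const.min hm)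
    have hh0 : ∀ x, 0 ≤ h x := fun x => le_max_left _ _
    have hh1 : ∀ x, h x ≤ 1 := fun x => max_le zero_le_one (min_le_left _ _)
    have hfh : ∀ x ∈ Icc (0 : ℝ) 1, f x = h x := by
      intro x hx
      have := hf x hx
      simp only [hh]
      rw [min_eq_right this.2, max_eq_right this.1]
    have e0 := congrFun hv 0
    have e1 := congrFun hv 1
    simp only [Matrix.cons_val_zero, Matrix.cons_val_one] at e0 e1
    rw [density_congr _ hfh] at e0 e1
    have d0 : density [true, false] h = 2 * ∫ x in (0 : ℝ)..1, h x * Pool.Agent.Q117.SA.Z h x :=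
      Pool.Agent.Q117.SA.dens_tf hhm hh0 hh1
    have d1 : density [true, true, false, false] h =
        12 * ∫ x in (0 : ℝ)..1, h x * (Pool.Agent.Q117.SA.A h x * Pool.Agent.Q117.SA.Z h x ^ 2) :=
      Pool.Agent.Q117.SA.dens_ttff hhm hh0 hh1
    rw [d0] at e0
    rw [d1] at e1
    have hmain := Pool.Agent.Q117.SA.main_ineq hhm hh0 hh1 h1 h2.le
    have e0' : ∫ x in (0 : ℝ)..1, h x * Pool.Agent.Q117.SA.Z h x =
        κ * (1 - Real.log (4 * κ)) := by linarith
    have e1' : ∫ x in (0 : ℝ)..1, h x *
        (Pool.Agent.Q117.SA.A h x * Pool.Agent.Q117.SA.Z h x ^ 2) =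
        (6 * κ ^ 2 * (1 - 2 * Real.log (4 * κ)) - ε) / 12 := by linarith
    rw [e0', e1'] at hmain
    nlinarith
  -- the product of the equations which are not trivial
  set P : MvPolynomial (Fin 2) ℝ := ∏ c ∈ F.filter (fun c => c.1 ≠ 0), c.1 with hP
  have hP0 : P ≠ 0 := by
    rw [hP, Finset.prod_ne_zero_iff]
    intro c hc
    exact (Finset.mem_filter.1 hc).2
  apply hP0
  refine Pool.Agent.Q117.SA.curve P fun κ h1 h2 => ?_
  have h3 := hin κ h1 h2
  rw [hF] at h3
  obtain ⟨c, hc, hc1, hc2⟩ := h3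
  have hne : c.1 ≠ 0 := by
    intro hc0
    -- otherwise the piece is open
    have hcont : ∀ q ∈ c.2, ∀ᶠ ε : ℝ in nhds 0, 0 < MvPolynomial.eval
        ![2 * κ * (1 - Real.log (4 * κ)), 6 * κ ^ 2 * (1 - 2 * Real.log (4 * κ)) - ε] q := by
      intro q hq
      have hco : Continuous (fun ε : ℝ => MvPolynomial.eval
          ![2 * κ * (1 - Real.log (4 * κ)), 6 * κ ^ 2 * (1 - 2 * Real.log (4 * κ)) - ε] q) := by
        refine (MvPolynomial.continuous_eval q).comp ?_
        refine continuous_pi fun i => ?_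
        fin_cases i
        · exact continuous_const
        · exact continuous_const.sub continuous_id
      have h4 := hc2 q hq
      have h5 : (0 : ℝ) < MvPolynomial.eval
          ![2 * κ * (1 - Real.log (4 * κ)), 6 * κ ^ 2 * (1 - 2 * Real.log (4 * κ)) - 0] q := by
        rw [sub_zero]
        exact h4
      exact hco.continuousAt.eventually (lt_mem_nhds h5)
    have hall : ∀ᶠ ε : ℝ in nhds 0, ∀ q ∈ c.2, 0 < MvPolynomial.eval
        ![2 * κ * (1 - Real.log (4 * κ)), 6 * κ ^ 2 * (1 - 2 * Real.log (4 * κ)) - ε] q :=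
      (Filter.eventually_all_finset c.2).2 hcont
    obtain ⟨δ, hδ, hδ2⟩ := Metric.eventually_nhds_iff.1 hall
    have h6 := hδ2 (y := δ / 2) (by
      rw [Real.dist_eq, sub_zero, abs_of_pos (by linarith)]
      linarith)
    apply hout κ (δ / 2) h1 h2 (by linarith)
    rw [hF]
    refine ⟨c, hc, ?_, h6⟩
    rw [hc0, map_zero]
  rw [hP, map_prod]
  refine Finset.prod_eq_zero (Finset.mem_filter.2 ⟨hc, hne⟩) hc1

end Pool.Agent.Results.MP_76c07a_co.NotSemialgebraic
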